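import Pool.Agent.Helper69.QG.St2

/-!
# Project QD, part C, module EVL: homomorphisms on the even subgroup
-/

set_option autoImplicit false

open Complex Set Metric
open scoped ComplexConjugate

namespace Pool.Agent.Helper95.QG

open Pool.Agent.Helper69.QG

private theorem par_gen (s : Fin 4) : cs.lengthParity (gen s) = Multiplicative.ofAdd 1 :=
  cs.lengthParity_simple s

private theorem par2 : (Multiplicative.ofAdd (1 : ZMod 2)) * Multiplicative.ofAdd 1 = 1 := by
  decide

private theorem par_ne : (Multiplicative.ofAdd (1 : ZMod 2)) ≠ 1 := by decide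

private theorem par_cases (x : Multiplicative (ZMod 2)) :
    x = 1 ∨ x = Multiplicative.ofAdd 1 := by
  revert x
  decide

private theorem mem_Ev (w : W) : w ∈ Ev ↔ cs.lengthParity w = 1 := Iff.rfl

private theorem gen_gen (s : Fin 4) : gen s * gen s = 1 := cs.simple_mul_simple_self s

private theorem ev_gen0 (s : Fin 4) : gen s * gen 0 ∈ Ev := by
  rw [mem_Ev, map_mul, par_gen, par_gen, par2]

/-- The permutation attached to a generator. -/
private def sg' {G : Type} [Group G] (p : Fin 4 → G) (s : Fin 4) : Equiv.Perm (G × Bool) where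
  toFun x := match x with
    | (g, false) => (p s * g, true)
    | (g, true) => ((p s)⁻¹ * g, false)
  invFun x := match x with
    | (g, false) => (p s * g, true)
    | (g, true) => ((p s)⁻¹ * g, false)
  left_inv := by
    rintro ⟨g, b⟩
    cases b <;> simp
  right_inv := by
    rintro ⟨g, b⟩
    cases b <;> simp

private theorem sg_false {G : Type} [Group G] (p : Fin 4 → G) (s : Fin 4) (g : G) :
    sg' p s (g, false) = (p s * g, true) := rfl

private theorem sg_true {G : Type} [Group G] (p : Fin 4 → G) (s : Fin 4) (g : G) :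
    sg' p s (g, true) = ((p s)⁻¹ * g, false) := rfl

private theorem sg_pow_false {G : Type} [Group G] (p : Fin 4 → G) (s t : Fin 4) (n : ℕ) (g : G) :
    ((sg' p s * sg' p t) ^ n) (g, false) = (((p s)⁻¹ * p t) ^ n * g, false) := by
  induction n generalizing g with
  | zero => simp
  | succ n ih =>
    rw [pow_succ, Equiv.Perm.mul_apply, Equiv.Perm.mul_apply, sg_false, sg_true, ih, pow_succ]
    simp only [mul_assoc]

private theorem sg_pow_true {G : Type} [Group G] (p : Fin 4 → G) (s t : Fin 4) (n : ℕ) (g : G) :
    ((sg' p s * sg' p t) ^ n) (g, true) = ((p s * (p t)⁻¹) ^ n * g, true) := by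
  induction n generalizing g with
  | zero => simp
  | succ n ih =>
    rw [pow_succ, Equiv.Perm.mul_apply, Equiv.Perm.mul_apply, sg_true, sg_false, ih, pow_succ]
    simp only [mul_assoc]

private theorem sg_lift {G : Type} [Group G] (p : Fin 4 → G)
    (h1 : ∀ s t, (p s * (p t)⁻¹) ^ (cm s t) = 1) (h2 : ∀ s t, ((p s)⁻¹ * p t) ^ (cm s t) = 1) :
    cm.IsLiftable (sg' p) := by
  intro s t
  ext1 x
  obtain ⟨g, b⟩ := x
  cases b
  · rw [sg_pow_false, h2, one_mul]
    rfl
  · rw [sg_pow_true, h1, one_mul]
    rfl

theorem cEVL : St_EVL := by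
  refine ⟨ev_gen0, ?_, ?_, ?_, ?_⟩
  · intro G _ p p0 h1 h2
    let ρ : W →* Equiv.Perm (G × Bool) := cs.lift ⟨sg' p, sg_lift p h1 h2⟩
    have hρ : ∀ s, ρ (gen s) = sg' p s := fun s => cs.lift_apply_simple (sg_lift p h1 h2) s
    -- right multiplication
    have hmul : ∀ (w : W) (g h : G) (b : Bool),
        ρ w (g * h, b) = ((ρ w (g, b)).1 * h, (ρ w (g, b)).2) := by
      intro w
      refine cs.simple_induction_left (p := fun w => ∀ (g h : G) (b : Bool),
        ρ w (g * h, b) = ((ρ w (g, b)).1 * h, (ρ w (g, b)).2)) w ?_ ?_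
      · intro g h b
        simp
      · intro w s ih g h b
        have e : ρ (cs.simple s * w) = sg' p s * ρ w := by
          rw [map_mul]
          exact congrArg (· * ρ w) (hρ s)
        rw [e, Equiv.Perm.mul_apply, Equiv.Perm.mul_apply, ih]
        rcases hx : ρ w (g, b) with ⟨u, c⟩
        cases c
        · simp only [sg_false]
          rw [mul_assoc]
        · simp only [sg_true]
          rw [mul_assoc]
    -- parity
    have hpar : ∀ w : W, (cs.lengthParity w = 1 → ∀ x, (ρ w x).2 = x.2) ∧
        (cs.lengthParity w = Multiplicative.ofAdd 1 → ∀ x, (ρ w x).2 = !x.2) := by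
      intro w
      refine cs.simple_induction_left (p := fun w => (cs.lengthParity w = 1 →
        ∀ x, (ρ w x).2 = x.2) ∧ (cs.lengthParity w = Multiplicative.ofAdd 1 →
          ∀ x, (ρ w x).2 = !x.2)) w ?_ ?_
      · refine ⟨fun _ x => by simp, fun h => ?_⟩
        rw [map_one] at h
        exact absurd h.symm par_ne
      · intro w s ih
        have e : ρ (cs.simple s * w) = sg' p s * ρ w := by
          rw [map_mul]
          exact congrArg (· * ρ w) (hρ s)
        have hflip : ∀ y : G × Bool, (sg' p s y).2 = !y.2 := by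
          rintro ⟨g, b⟩
          cases b <;> rfl
        have hp : cs.lengthParity (cs.simple s * w) =
            Multiplicative.ofAdd 1 * cs.lengthParity w := by
          rw [map_mul, cs.lengthParity_simple]
        rcases par_cases (cs.lengthParity w) with h | h
        · constructor
          · intro h'
            rw [hp, h, mul_one] at h'
            exact absurd h' par_ne
          · intro _ x
            rw [e, Equiv.Perm.mul_apply, hflip, ih.1 h]
        · constructor
          · intro _ x
            rw [e, Equiv.Perm.mul_apply, hflip, ih.2 h, Bool.not_not]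
          · intro h'
            rw [hp, h, par2] at h'
            exact absurd h'.symm par_ne
    have hEv : ∀ w : Ev, ρ w (1, true) = ((ρ w (1, true)).1, true) := by
      intro w
      exact Prod.ext rfl ((hpar w).1 w.2 (1, true))
    refine ⟨{ toFun := fun w => (ρ w (1, true)).1, map_one' := by simp, map_mul' := ?_ }, ?_⟩
    · intro w w'
      rw [Subgroup.coe_mul, map_mul, Equiv.Perm.mul_apply, hEv w']
      have h := hmul w 1 (ρ w' (1, true)).1 true
      rw [one_mul] at h
      rw [h]
    · intro s h
      change (ρ (gen s * gen 0) (1, true)).1 = p s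
      rw [map_mul, hρ, hρ, Equiv.Perm.mul_apply, sg_true, sg_false, p0]
      simp
  · intro G _ f f' hff
    have key : ∀ w : W, (∀ h : w ∈ Ev, f ⟨w, h⟩ = f' ⟨w, h⟩) ∧
        (∀ h : gen 0 * w ∈ Ev, f ⟨gen 0 * w, h⟩ = f' ⟨gen 0 * w, h⟩) := by
      intro w
      refine cs.simple_induction_left (p := fun w => (∀ h : w ∈ Ev, f ⟨w, h⟩ = f' ⟨w, h⟩) ∧
        (∀ h : gen 0 * w ∈ Ev, f ⟨gen 0 * w, h⟩ = f' ⟨gen 0 * w, h⟩)) w ?_ ?_
      · refine ⟨fun h => ?_, fun h => ?_⟩
        · have : (⟨1, h⟩ : Ev) = 1 := rfl
          rw [this, map_one, map_one]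
        · rw [mem_Ev, mul_one, par_gen] at h
          exact absurd h par_ne
      · intro w s ih
        constructor
        · intro h
          change gen s * w ∈ Ev at h
          have e : gen s * w = (gen s * gen 0) * (gen 0 * w) := by
            rw [mul_assoc, ← mul_assoc (gen 0), gen_gen, one_mul]
          have h0 : gen 0 * w ∈ Ev := by
            rw [e] at h
            exact (Ev.mul_mem_cancel_left (ev_gen0 s)).1 h
          have e2 : (⟨gen s * w, h⟩ : Ev) = ⟨gen s * gen 0, ev_gen0 s⟩ * ⟨gen 0 * w, h0⟩ :=
            Subtype.ext e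
          change f ⟨gen s * w, h⟩ = f' ⟨gen s * w, h⟩
          rw [e2, map_mul, map_mul, hff, ih.2]
        · intro h
          change gen 0 * (gen s * w) ∈ Ev at h
          have e : gen 0 * (gen s * w) = (gen s * gen 0)⁻¹ * w := by
            rw [mul_inv_rev, inv_eq_of_mul_eq_one_right (gen_gen s),
              inv_eq_of_mul_eq_one_right (gen_gen 0), mul_assoc]
          have h0 : w ∈ Ev := by
            rw [e] at h
            exact (Ev.mul_mem_cancel_left (Ev.inv_mem (ev_gen0 s))).1 h
          have e2 : (⟨gen 0 * (gen s * w), h⟩ : Ev) = (⟨gen s * gen 0, ev_gen0 s⟩)⁻¹ * ⟨w, h0⟩ :=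
            Subtype.ext e
          change f ⟨gen 0 * (gen s * w), h⟩ = f' ⟨gen 0 * (gen s * w), h⟩
          rw [e2, map_mul, map_mul, map_inv, map_inv, hff, ih.1]
    ext w
    exact (key w).1 w.2
  · intro w
    rcases par_cases (cs.lengthParity w) with h | h
    · exact Or.inl h
    · right
      rw [mem_Ev, map_mul, h, par_gen, par2]
  · intro s h
    rw [mem_Ev, par_gen] at h
    exact par_ne h

end Pool.Agent.Helper95.QG
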